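import Pool.Agent.Helper18.EW.Goals
import Pool.Agent.Helper63.Hw.H1
import Pool.Agent.Helper62.Hw.H4
import Pool.Agent.Helper38.Hw.H6

/-! # Project EW, packet E8a -/

set_option autoImplicit false

namespace Pool.Agent.Helper73.EW

open Finset
open Pool.Agent.Helper43.Hw (T na va lz Play aa ac sc oo sk U Dd Sd Pn nx bb np GoalH4)
open Pool.Agent.Helper18.EW

theorem sk_sum {μ τ j : ℕ} {κ x : ℕ → ℕ} (hκ : ∀ y, τ ≤ y → y < τ + j → κ y = κ τ) :
    ∑ i ∈ range j, sk μ κ x (τ + i) ≤ μ := by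
  unfold sk
  have g1 : ∑ i ∈ range j, ((range (τ + i)).filter (fun t => κ t < κ (τ + i) ∧ 0 < x t ∧
      μ + t = x t + (τ + i))).card = ((range j).biUnion fun i =>
      (range (τ + i)).filter (fun t => κ t < κ (τ + i) ∧ 0 < x t ∧
        μ + t = x t + (τ + i))).card := by
    refine (Finset.card_biUnion fun i _ k _ hik => ?_).symm
    show Disjoint _ _
    rw [Finset.disjoint_left]
    intro t ht ht'
    rw [mem_filter] at ht ht'
    omega
  rw [g1]
  have g2 : ((range j).biUnion fun i =>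
      (range (τ + i)).filter (fun t => κ t < κ (τ + i) ∧ 0 < x t ∧
        μ + t = x t + (τ + i))) ⊆ Ico (τ - μ) τ := by
    intro t ht
    rw [mem_biUnion] at ht
    obtain ⟨i, hi, ht⟩ := ht
    rw [mem_filter, mem_range] at ht
    rw [mem_range] at hi
    rw [mem_Ico]
    obtain ⟨h1, h2, h3, h4⟩ := ht
    refine ⟨by omega, ?_⟩
    by_contra hcon
    rw [hκ t (by omega) (by omega), hκ (τ + i) (by omega) (by omega)] at h2
    exact lt_irrefl _ h2
  refine (card_le_card g2).trans ?_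
  rw [Nat.card_Ico]
  omega

theorem arith1 {μ R l β v1 b g O S j : ℕ} (hμ : 1 ≤ μ) (hl : 1 ≤ l) (hβ : 1 ≤ β)
    (hR : 100 * μ ≤ R) (hb : 16 ≤ b) (hi : l * (β * R) ≤ 8 * μ ^ 2) (hv : 320 * v1 ≤ b * l)
    (hj : j ≤ v1) (hO : μ * O ≤ j * (4 * (β * R) + β * R / 12 + μ)) (hS : S ≤ μ)
    (hg : g ≤ μ + j * β + O + S) : 4 * g ≤ b * μ := by
  have e1 : 100 * (β * μ) ≤ β * R := by
    calc 100 * (β * μ) = β * (100 * μ) := by ring
      _ ≤ β * R := Nat.mul_le_mul_left _ hR
  have e2 : μ ≤ β * μ := Nat.le_mul_of_pos_left _ hβ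
  have e3 : β * μ + (4 * (β * R) + β * R / 12 + μ) ≤ 5 * (β * R) := by omega
  have e4 : μ * g ≤ 2 * μ ^ 2 + 5 * (v1 * (β * R)) := by
    calc μ * g ≤ μ * (μ + j * β + O + S) := Nat.mul_le_mul_left _ hg
      _ = μ ^ 2 + j * (β * μ) + μ * O + μ * S := by ring
      _ ≤ μ ^ 2 + j * (β * μ) + j * (4 * (β * R) + β * R / 12 + μ) + μ * μ := by
          have := Nat.mul_le_mul_left μ hS
          omega
      _ = 2 * μ ^ 2 + j * (β * μ + (4 * (β * R) + β * R / 12 + μ)) := by ring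
      _ ≤ 2 * μ ^ 2 + v1 * (5 * (β * R)) := by
          have := Nat.mul_le_mul hj e3
          omega
      _ = 2 * μ ^ 2 + 5 * (v1 * (β * R)) := by ring
  have e5 : μ * (l * g) ≤ μ * (2 * (l * μ) + 40 * (v1 * μ)) := by
    calc μ * (l * g) = l * (μ * g) := by ring
      _ ≤ l * (2 * μ ^ 2 + 5 * (v1 * (β * R))) := Nat.mul_le_mul_left _ e4
      _ = 2 * (l * μ ^ 2) + 5 * v1 * (l * (β * R)) := by ring
      _ ≤ 2 * (l * μ ^ 2) + 5 * v1 * (8 * μ ^ 2) := by
          have := Nat.mul_le_mul_left (5 * v1) hi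
          omega
      _ = μ * (2 * (l * μ) + 40 * (v1 * μ)) := by ring
  have e6 : l * g ≤ 2 * (l * μ) + 40 * (v1 * μ) := Nat.le_of_mul_le_mul_left e5 hμ
  have e7 : l * (8 * g) ≤ l * (2 * (b * μ)) := by
    calc l * (8 * g) = 8 * (l * g) := by ring
      _ ≤ 8 * (2 * (l * μ) + 40 * (v1 * μ)) := Nat.mul_le_mul_left _ e6
      _ = l * (16 * μ) + (320 * v1) * μ := by ring
      _ ≤ l * (16 * μ) + (b * l) * μ := by
          have := Nat.mul_le_mul_right μ hv
          omega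
      _ = l * (16 * μ + b * μ) := by ring
      _ ≤ l * (2 * (b * μ)) := by
          refine Nat.mul_le_mul_left _ ?_
          have := Nat.mul_le_mul_right μ hb
          omega
  have e8 : 8 * g ≤ 2 * (b * μ) := Nat.le_of_mul_le_mul_left e7 hl
  omega

theorem arith2 {μ R l β v1 b g o L t : ℕ} (hμ : 1 ≤ μ)
    (hR : 100 * μ ≤ R) (hlo : 4 * μ ^ 2 ≤ l * (β * R)) (hbl : b * l ≤ μ) (hv : v1 ≤ μ)
    (ht : R ≤ t + v1 + μ) (hL : β * (2 * t) ≤ 2 * L + β) (hg : 4 * g ≤ b * μ)
    (ho : L ≤ μ * o + g) : μ ≤ 16 * l * (o + 1) := by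
  have e1 : 100 * (β * μ) ≤ β * R := by
    calc 100 * (β * μ) = β * (100 * μ) := by ring
      _ ≤ β * R := Nat.mul_le_mul_left _ hR
  have e2 : β ≤ β * μ := Nat.le_mul_of_pos_right _ hμ
  have e3 : 2 * (β * R) ≤ β * (2 * t) + 4 * (β * μ) := by
    calc 2 * (β * R) = β * (2 * R) := by ring
      _ ≤ β * (2 * t + 4 * μ) := Nat.mul_le_mul_left _ (by omega)
      _ = β * (2 * t) + 4 * (β * μ) := by ring
  have e4 : 39 * (β * R) ≤ 40 * L := by omega
  have e5 : 156 * μ ^ 2 ≤ 40 * (l * L) := by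
    calc 156 * μ ^ 2 = 39 * (4 * μ ^ 2) := by ring
      _ ≤ 39 * (l * (β * R)) := Nat.mul_le_mul_left _ hlo
      _ = l * (39 * (β * R)) := by ring
      _ ≤ l * (40 * L) := Nat.mul_le_mul_left _ e4
      _ = 40 * (l * L) := by ring
  have e6 : 4 * (l * g) ≤ μ ^ 2 := by
    calc 4 * (l * g) = l * (4 * g) := by ring
      _ ≤ l * (b * μ) := Nat.mul_le_mul_left _ hg
      _ = b * l * μ := by ring
      _ ≤ μ * μ := Nat.mul_le_mul_right _ hbl
      _ = μ ^ 2 := by ring
  have e7 : l * L ≤ μ * (l * o) + l * g := by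
    calc l * L ≤ l * (μ * o + g) := Nat.mul_le_mul_left _ ho
      _ = μ * (l * o) + l * g := by ring
  have e8 : μ * μ ≤ μ * (16 * l * (o + 1)) := by
    have h1 : μ * (16 * l * (o + 1)) = 16 * (μ * (l * o)) + 16 * (μ * l) := by ring
    have h2 : μ * μ = μ ^ 2 := by ring
    rw [h1, h2]
    omega
  exact Nat.le_of_mul_le_mul_left e8 hμ

theorem goalE8a' (h4 : GoalH4) (h6 : GoalE6a) : GoalE8a := by
  intro μ R N K b l Lg q β v τ ℓ κ x hPh hle hlt
  have hl := hPh.par.l1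
  have hR1 := hPh.par.R1
  have hL1 := hPh.par.L1
  have hb1 := hPh.par.b1
  have hb2 := hPh.par.b2
  have hb16 : 16 ≤ b := by
    calc 16 ≤ 2 ^ 40 * 1 := by norm_num
      _ ≤ 2 ^ 40 * Lg := Nat.mul_le_mul_left _ hL1
      _ ≤ b := hb1
  have hbl : b * l ≤ μ := by
    refine le_trans ?_ hb2
    calc b * l = 1 * (b * l) := (one_mul _).symm
      _ ≤ (2 ^ 31 * (q + 1) ^ 2) * (b * l) :=
          Nat.mul_le_mul_right _ (Nat.one_le_iff_ne_zero.2 (by positivity))
      _ = 2 ^ 31 * b * (q + 1) ^ 2 * l := by ring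
  have hμ : 1 ≤ μ := le_trans (Nat.mul_pos (by omega) hl) hbl
  have hμR : μ + 2 ≤ R := by omega
  have hβ := hPh.len.b1
  have hvb := hPh.vb
  have hvμ : 2 ^ q * v ≤ μ := by omega
  have ht1 := hPh.t1
  have hP := hPh.play
  have hg1 := hPh.g1
  have hg2 := hPh.g2
  have hpa := hPh.pa
  have hτ : 1 ≤ τ := by
    rcases Nat.eq_zero_or_pos τ with h | h
    · rw [h] at hg1
      exact absurd hg1 (lt_irrefl _)
    · exact h
  have h4' := h4 μ R N κ x hμ hμR hP
  have hna : ∀ t, t + 1 + μ ≤ R → na μ R t = 0 := by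
    intro t ht
    unfold na
    omega
  have hstep : ∀ t, τ ≤ t → t + 2 + μ ≤ R →
      lz μ R N κ x (t + 1) + oo μ R κ x t + sk μ κ x t = lz μ R N κ x t := by
    intro t h1 h2
    obtain ⟨k1, k2⟩ := hpa t h1 (by omega)
    obtain ⟨k3, k4⟩ := hpa (t + 1) (by omega) (by omega)
    have g := (h4' t (by omega)).1 (by rw [k1]; exact hg2) (by rw [k3]; exact hg2)
    rw [k2, k4, hna t (by omega), hna (t + 1) (by omega), k1, k3, Nat.sub_self, zero_mul,
      mul_zero] at g
    omega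
  have hst : ∀ t, τ ≤ t → t + 1 < R → ℓ (t + 1) = ℓ t + β := fun t h1 h2 =>
    hPh.len.st t (by omega) h2
  have hC1 : ∀ j, τ + j + 1 + μ ≤ R → lz μ R N κ x (τ + j) ≤ ℓ (τ + j) := by
    intro j
    induction j with
    | zero => intro _; exact hle
    | succ j ih =>
      intro hj
      have g1 := ih (by omega)
      have g2 := hstep (τ + j) (by omega) (by omega)
      have g3 := hst (τ + j) (by omega) (by omega)
      rw [show τ + (j + 1) = τ + j + 1 by ring]
      omega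
  have hC2 : ∀ j, τ + j + 1 + μ ≤ R → ℓ (τ + j) + lz μ R N κ x τ =
      lz μ R N κ x (τ + j) + ℓ τ + j * β + ∑ i ∈ range j, oo μ R κ x (τ + i) +
        ∑ i ∈ range j, sk μ κ x (τ + i) := by
    intro j
    induction j with
    | zero => intro _; simp; omega
    | succ j ih =>
      intro hj
      have g1 := ih (by omega)
      have g2 := hstep (τ + j) (by omega) (by omega)
      have g3 := hst (τ + j) (by omega) (by omega)
      rw [show τ + (j + 1) = τ + j + 1 by ring, sum_range_succ, sum_range_succ, Nat.succ_mul]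
      omega
  have hall : ∀ z, z + 1 + μ ≤ R → lz μ R N κ x z ≤ ℓ z := by
    intro z hz
    rcases Nat.lt_or_ge z τ with h | h
    · exact (hPh.ex.2.2 z (by omega)).le
    · have := hC1 (z - τ) (by omega)
      rwa [Nat.add_sub_cancel' h] at this
  have hoo : ∀ t, t + 1 + μ ≤ R → μ * oo μ R κ x t ≤ 4 * (β * R) + β * R / 12 + μ := by
    intro t ht
    have g1 := h6 μ R N β ℓ κ x t hμ hμR hPh.len hP (by omega) fun z hz => hall z (by omega)
    have g2 := hPh.len.hi t (by omega)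
    omega
  have hup : ∀ j, τ + j + 1 + μ ≤ R →
      4 * (ℓ (τ + j) - lz μ R N κ x (τ + j)) ≤ b * μ := by
    intro j hj
    have hO : μ * ∑ i ∈ range j, oo μ R κ x (τ + i) ≤
        j * (4 * (β * R) + β * R / 12 + μ) := by
      rw [Finset.mul_sum]
      have := Finset.sum_le_card_nsmul (range j) (fun i => μ * oo μ R κ x (τ + i))
        (4 * (β * R) + β * R / 12 + μ) (fun i hi => by
          rw [mem_range] at hi
          exact hoo (τ + i) (by omega))
      rw [card_range, smul_eq_mul] at this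
      exact this
    have hS : ∑ i ∈ range j, sk μ κ x (τ + i) ≤ μ :=
      sk_sum fun y h1 h2 => (hpa y h1 (by omega)).1
    have g1 := hC2 j hj
    have g2 := hC1 j hj
    exact arith1 hμ hl hβ hR1 hb16 hPh.hi hvb (j := j) (by omega) hO hS (by omega)
  refine ⟨fun t h1 h2 => ⟨hall t h2, ?_⟩, fun t h1 h2 => ?_⟩
  · have := hup (t - τ) (by omega)
    rwa [Nat.add_sub_cancel' h1] at this
  · have g1 := hstep t h1 h2
    have g2 := hst t h1 (by omega)
    have g3 := hall t (by omega)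
    have g4 := hall (t + 1) (by omega)
    obtain ⟨k1, k2⟩ := hpa t h1 (by omega)
    have g5 : 4 * (ℓ t - lz μ R N κ x t) ≤ b * μ := by
      have := hup (t - τ) (by omega)
      rwa [Nat.add_sub_cancel' h1] at this
    have g6 := Pool.Agent.Helper43.Hw.PkH6.lz_le (μ := μ) (R := R) (N := N) (κ := κ) (x := x)
      (y := t) (by rw [k1]; exact hg2) (hna t (by omega))
    rw [k2, hna t (by omega)] at g6
    have g7 := hPh.len.lo t (by omega) (by omega)
    have g8 := arith2 (o := oo μ R κ x t) hμ hR1 hPh.lo hbl hvμ (t := t) (by omega) g7 g5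
      (by omega)
    have g9 : 16 * l * (ℓ t - lz μ R N κ x t) + 16 * l * (oo μ R κ x t + 1) ≤
        16 * l * (ℓ (t + 1) - lz μ R N κ x (t + 1)) := by
      rw [← mul_add]
      exact Nat.mul_le_mul_left _ (by omega)
    omega

theorem goalE8a (h6 : GoalE6a) : GoalE8a :=
  goalE8a' (Pool.Agent.Helper43.Hw.PkH4.goalH4 Pool.Agent.Helper43.Hw.PkH1.goalH1) h6

end Pool.Agent.Helper73.EW
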